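import Pool.Agent.MP_0b3510_an.Exists

set_option autoImplicit false

namespace Pool.Agent.Results.MP_0b3510_an.NotIsomorphic

open Pool.Agent.MP_0b3510_an

theorem result (A : Type) [CStarAlgebra A] [Nontrivial A] (s : ℕ → A)
    (hs : IsCuntzGenerators s) :
    ∃ ω₁ ω₂ : A →L[ℂ] ℂ, IsState ω₁ ∧ IsState ω₂ ∧
      (∃ (D₁ : Type) (_ : CStarAlgebra D₁) (ρ₁ : D₁ →L[ℂ] ℂ), IsReducedFreePower ω₁ ρ₁) ∧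
      (∃ (D₂ : Type) (_ : CStarAlgebra D₂) (ρ₂ : D₂ →L[ℂ] ℂ), IsReducedFreePower ω₂ ρ₂) ∧
      ∀ (D₁ D₂ : Type) [CStarAlgebra D₁] [CStarAlgebra D₂]
        (ρ₁ : D₁ →L[ℂ] ℂ) (ρ₂ : D₂ →L[ℂ] ℂ),
        IsReducedFreePower ω₁ ρ₁ → IsReducedFreePower ω₂ ρ₂ → IsEmpty (D₁ ≃⋆ₐ[ℂ] D₂) := by
  obtain ⟨ω₁, ω₂, h₁, h₂, h⟩ := main_forall hs
  exact ⟨ω₁, ω₂, h₁, h₂, Ex.exists_reducedFreePower h₁, Ex.exists_reducedFreePower h₂, h⟩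

end Pool.Agent.Results.MP_0b3510_an.NotIsomorphic
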